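import Pool.Agent.W921.RF.Defs

/-! Project RF: the coefficients are computable (`S_CFC`). -/

set_option autoImplicit false

namespace Pool.Agent.W439.RF.Cfc

open Pool.Agent.W921.RF

/-- occurrence of `x`: numbers of `t` and of its inverse after it, and the sign -/
abbrev El : Type := ℕ × ℕ × Bool

/-- parameters `(d, A, B, s)` -/
abbrev Pa : Type := ℕ × ℕ × ℕ × Bool

/-- state `(A, B, L, P, N)` -/
abbrev St : Type := ℕ × ℕ × List El × ℕ × ℕ

def eq1 (x : Pa × El) : Bool := decide (x.2.1 + x.1.2.2.1 = x.2.2.1 + x.1.2.1 + x.1.1)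
def eq2 (x : Pa × El) : Bool := decide (x.2.2.1 + x.1.2.1 = x.2.1 + x.1.2.2.1 + x.1.1)
def same (x : Pa × El) : Bool := !(xor x.1.2.2.2 x.2.2.2)
def bP (x : Pa × El) : Bool := (same x && eq1 x) || (!(same x) && eq2 x)
def bN (x : Pa × El) : Bool := (!(same x) && eq1 x) || (same x && eq2 x)

def sP (x : Pa × List El) : ℕ :=
  x.2.foldr (fun e c => cond (bP (x.1, e)) (c + 1) c) 0
def sN (x : Pa × List El) : ℕ :=
  x.2.foldr (fun e c => cond (bN (x.1, e)) (c + 1) c) 0

def isT (l : Lt) : Bool := decide (l.1 = 0)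

def stp (y : (List Lt × ℕ) × Lt × St) : St :=
  cond (isT y.2.1)
    (cond y.2.1.2 (y.2.2.1 + 1, y.2.2.2) (y.2.2.1, y.2.2.2.1 + 1, y.2.2.2.2))
    (y.2.2.1, y.2.2.2.1, (y.2.2.1, y.2.2.2.1, y.2.1.2) :: y.2.2.2.2.1,
      y.2.2.2.2.2.1 + sP ((y.1.2, y.2.2.1, y.2.2.2.1, y.2.1.2), y.2.2.2.2.1),
      y.2.2.2.2.2.2 + sN ((y.1.2, y.2.2.1, y.2.2.2.1, y.2.1.2), y.2.2.2.2.1))

def st (q : List Lt × ℕ) : St := q.1.foldr (fun l S => stp (q, l, S)) (0, 0, [], 0, 0)

/-! ### primitive recursiveness -/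

open Primrec

theorem p_eq1 : Primrec eq1 := by
  refine (PrimrecRel.decide Primrec.eq).comp ?_ ?_
  · exact Primrec.nat_add.comp (fst.comp snd) (fst.comp (snd.comp (snd.comp fst)))
  · exact Primrec.nat_add.comp (Primrec.nat_add.comp (fst.comp (snd.comp snd))
      (fst.comp (snd.comp fst))) (fst.comp fst)

theorem p_eq2 : Primrec eq2 := by
  refine (PrimrecRel.decide Primrec.eq).comp ?_ ?_
  · exact Primrec.nat_add.comp (fst.comp (snd.comp snd)) (fst.comp (snd.comp fst))
  · exact Primrec.nat_add.comp (Primrec.nat_add.comp (fst.comp snd)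
      (fst.comp (snd.comp (snd.comp fst)))) (fst.comp fst)

theorem p_same : Primrec same :=
  Primrec.not.comp ((Primrec.dom_bool₂ xor).comp (snd.comp (snd.comp (snd.comp fst)))
    (snd.comp (snd.comp snd)))

theorem p_bP : Primrec bP :=
  Primrec.or.comp (Primrec.and.comp p_same p_eq1) (Primrec.and.comp (Primrec.not.comp p_same) p_eq2)

theorem p_bN : Primrec bN :=
  Primrec.or.comp (Primrec.and.comp (Primrec.not.comp p_same) p_eq1) (Primrec.and.comp p_same p_eq2)

theorem p_sP : Primrec sP := by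
  refine Primrec.list_foldr (h := fun x y => cond (bP (x.1, y.1)) (y.2 + 1) y.2) snd
    (Primrec.const 0) ?_
  refine Primrec.cond (p_bP.comp (Primrec.pair (fst.comp fst) (fst.comp snd))) ?_ (snd.comp snd)
  exact Primrec.succ.comp (snd.comp snd)

theorem p_sN : Primrec sN := by
  refine Primrec.list_foldr (h := fun x y => cond (bN (x.1, y.1)) (y.2 + 1) y.2) snd
    (Primrec.const 0) ?_
  refine Primrec.cond (p_bN.comp (Primrec.pair (fst.comp fst) (fst.comp snd))) ?_ (snd.comp snd)
  exact Primrec.succ.comp (snd.comp snd)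

theorem p_isT : Primrec isT := Primrec.dom_finite _

theorem p_stp : Primrec stp := by
  have l1 : Primrec (fun y : (List Lt × ℕ) × Lt × St => y.2.1) := fst.comp snd
  have lb : Primrec (fun y : (List Lt × ℕ) × Lt × St => y.2.1.2) := snd.comp l1
  have s0 : Primrec (fun y : (List Lt × ℕ) × Lt × St => y.2.2) := snd.comp snd
  have s1 : Primrec (fun y : (List Lt × ℕ) × Lt × St => y.2.2.1) := fst.comp s0
  have s2 : Primrec (fun y : (List Lt × ℕ) × Lt × St => y.2.2.2) := snd.comp s0
  have s3 : Primrec (fun y : (List Lt × ℕ) × Lt × St => y.2.2.2.1) := fst.comp s2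
  have s4 : Primrec (fun y : (List Lt × ℕ) × Lt × St => y.2.2.2.2) := snd.comp s2
  have s5 : Primrec (fun y : (List Lt × ℕ) × Lt × St => y.2.2.2.2.1) := fst.comp s4
  have s6 : Primrec (fun y : (List Lt × ℕ) × Lt × St => y.2.2.2.2.2) := snd.comp s4
  have s7 : Primrec (fun y : (List Lt × ℕ) × Lt × St => y.2.2.2.2.2.1) := fst.comp s6
  have s8 : Primrec (fun y : (List Lt × ℕ) × Lt × St => y.2.2.2.2.2.2) := snd.comp s6
  have d0 : Primrec (fun y : (List Lt × ℕ) × Lt × St => y.1.2) := snd.comp fst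
  have pa : Primrec (fun y : (List Lt × ℕ) × Lt × St =>
      (((y.1.2, y.2.2.1, y.2.2.2.1, y.2.1.2), y.2.2.2.2.1) : Pa × List El)) :=
    Primrec.pair (Primrec.pair d0 (Primrec.pair s1 (Primrec.pair s3 lb))) s5
  refine Primrec.cond (p_isT.comp l1) (Primrec.cond lb ?_ ?_) ?_
  · exact Primrec.pair (Primrec.succ.comp s1) s2
  · exact Primrec.pair s1 (Primrec.pair (Primrec.succ.comp s3) s4)
  · refine Primrec.pair s1 (Primrec.pair s3 (Primrec.pair ?_ (Primrec.pair ?_ ?_)))
    · exact Primrec.list_cons.comp (Primrec.pair s1 (Primrec.pair s3 lb)) s5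
    · exact Primrec.nat_add.comp s7 (p_sP.comp pa)
    · exact Primrec.nat_add.comp s8 (p_sN.comp pa)

theorem p_st : Primrec st :=
  Primrec.list_foldr (h := fun q y => stp (q, y.1, y.2)) fst (Primrec.const _)
    (p_stp.comp (Primrec.pair fst (Primrec.pair (fst.comp snd) (snd.comp snd))))

/-! ### correctness -/

/-- the function of `cf` -/
def rr (d : ℕ) (i : ℤ) : ℤ := if i = (d : ℤ) then (1 : ℤ) else if i = -(d : ℤ) then -1 else 0

theorem cf_cons (o : ℤ × ℤ) (l : List (ℤ × ℤ)) (d : ℕ) : cf (o :: l) d =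
    cf l d + (l.map fun o' => (o.2 * o'.2) • rr d (o.1 - o'.1)).sum := rfl

theorem term_eq (d A B : ℕ) (hd : 0 < d) (s : Bool) (e : El) (k : ℤ) :
    (sg s * sg e.2.2) • rr d (k - (k + ((e.2.1 : ℤ) - e.1) + ((A : ℤ) - B))) =
      ((cond (bP ((d, A, B, s), e)) 1 0 : ℕ) : ℤ) - ((cond (bN ((d, A, B, s), e)) 1 0 : ℕ) : ℤ) := by
  obtain ⟨a, b, se⟩ := e
  have hx : k - (k + ((b : ℤ) - a) + ((A : ℤ) - B)) = (a : ℤ) + B - b - A := by ring
  simp only [hx, bP, bN, eq1, eq2, same, rr]
  by_cases h1 : a + B = b + A + d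
  · have h2 : ¬ (b + A = a + B + d) := by omega
    have h3 : (a : ℤ) + B - b - A = d := by omega
    simp only [h3, h1, h2]
    have h2' : ¬ (b + A = b + A + d + d) := by omega
    cases s <;> cases se <;> simp [sg, h2']
  · by_cases h2 : b + A = a + B + d
    · have h3 : ¬ (a : ℤ) + B - b - A = d := by omega
      have h4 : (a : ℤ) + B - b - A = -(d : ℤ) := by omega
      rw [if_neg h3, if_pos h4]
      have h1' : ¬ (a + B = a + B + d + d) := by omega
      simp only [h1, h2]
      cases s <;> cases se <;> simp [sg, h1']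
    · have h3 : ¬ (a : ℤ) + B - b - A = d := by omega
      have h4 : ¬ (a : ℤ) + B - b - A = -(d : ℤ) := by omega
      rw [if_neg h3, if_neg h4]
      simp [h1, h2]

theorem sum_eq (d A B : ℕ) (hd : 0 < d) (s : Bool) (k : ℤ) : ∀ L : List El,
    (L.map fun e => (sg s * sg e.2.2) • rr d (k - (k + ((e.2.1 : ℤ) - e.1) + ((A : ℤ) - B)))).sum
      = (sP ((d, A, B, s), L) : ℤ) - (sN ((d, A, B, s), L) : ℤ)
  | [] => by simp [sP, sN]
  | e :: L => by
    have ih := sum_eq d A B hd s k L
    have h1 : sP ((d, A, B, s), e :: L) =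
        sP ((d, A, B, s), L) + cond (bP ((d, A, B, s), e)) 1 0 := by
      unfold sP
      simp only [List.foldr_cons]
      cases bP ((d, A, B, s), e) <;> rfl
    have h2 : sN ((d, A, B, s), e :: L) =
        sN ((d, A, B, s), L) + cond (bN ((d, A, B, s), e)) 1 0 := by
      unfold sN
      simp only [List.foldr_cons]
      cases bN ((d, A, B, s), e) <;> rfl
    rw [List.map_cons, List.sum_cons, ih, term_eq d A B hd s e k, h1, h2]
    push_cast
    ring

theorem st_cons (l : Lt) (w : List Lt) (d : ℕ) :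
    st (l :: w, d) = stp ((w, d), l, st (w, d)) := by
  have h : ∀ (v w : List Lt) (S : St) (l : Lt), stp ((v, d), l, S) = stp ((w, d), l, S) :=
    fun _ _ _ _ => rfl
  unfold st
  simp only [List.foldr_cons]
  rw [h (l :: w) w]
  congr 3

theorem inv (d : ℕ) (hd : 0 < d) : ∀ w : List Lt,
    (∀ k : ℤ, occ k w = (st (w, d)).2.2.1.map (fun e =>
      (k + ((e.2.1 : ℤ) - e.1) + (((st (w, d)).1 : ℤ) - (st (w, d)).2.1), sg e.2.2))) ∧
    ∀ k : ℤ, cf (occ k w) d = ((st (w, d)).2.2.2.1 : ℤ) - (st (w, d)).2.2.2.2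
  | [] => by
    refine ⟨fun k => by simp [occ, st], fun k => by simp [occ, st, cf, Zf]⟩
  | l :: w => by
    obtain ⟨ih1, ih2⟩ := inv d hd w
    obtain ⟨i, s⟩ := l
    by_cases hi : i = 0
    · subst hi
      cases s with
      | true =>
        have h : st ((0, true) :: w, d) = ((st (w, d)).1 + 1, (st (w, d)).2) := by
          rw [st_cons]
          simp [stp, isT]
        rw [h]
        refine ⟨fun k => ?_, fun k => ?_⟩
        · simp only [occ, if_true, ih1, sg]
          refine List.map_congr_left fun e _ => ?_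
          refine Prod.ext ?_ rfl
          push_cast
          ring
        · simp only [occ, if_true, ih2]
      | false =>
        have h : st ((0, false) :: w, d) =
            ((st (w, d)).1, (st (w, d)).2.1 + 1, (st (w, d)).2.2) := by
          rw [st_cons]
          simp [stp, isT]
        rw [h]
        refine ⟨fun k => ?_, fun k => ?_⟩
        · simp only [occ, if_true, ih1, sg]
          refine List.map_congr_left fun e _ => ?_
          refine Prod.ext ?_ rfl
          push_cast
          ring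
        · simp only [occ, if_true, ih2]
    · have h : st ((i, s) :: w, d) = ((st (w, d)).1, (st (w, d)).2.1,
          ((st (w, d)).1, (st (w, d)).2.1, s) :: (st (w, d)).2.2.1,
          (st (w, d)).2.2.2.1 + sP ((d, (st (w, d)).1, (st (w, d)).2.1, s), (st (w, d)).2.2.1),
          (st (w, d)).2.2.2.2 + sN ((d, (st (w, d)).1, (st (w, d)).2.1, s), (st (w, d)).2.2.1)) := by
        rw [st_cons]
        simp [stp, isT, hi]
      rw [h]
      refine ⟨fun k => ?_, fun k => ?_⟩
      · simp only [occ, if_neg hi, List.map_cons]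
        rw [ih1 k]
        refine congrArg₂ List.cons ?_ rfl
        refine Prod.ext ?_ rfl
        push_cast
        ring
      · simp only [occ, if_neg hi]
        rw [cf_cons, ih2, ih1, List.map_map]
        have h5 := sum_eq d (st (w, d)).1 (st (w, d)).2.1 hd s k (st (w, d)).2.2.1
        refine (congrArg (fun z => ((st (w, d)).2.2.2.1 : ℤ) - (st (w, d)).2.2.2.2 + z) h5).trans ?_
        push_cast
        ring

theorem task : S_CFC := by
  refine ⟨fun w d => (st (w, d)).2.2.2.1, fun w d => (st (w, d)).2.2.2.2, ?_, ?_, fun w d hd => ?_⟩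
  · exact (fst.comp (snd.comp (snd.comp (snd.comp p_st)))).to_comp
  · exact (snd.comp (snd.comp (snd.comp (snd.comp p_st)))).to_comp
  · exact (inv d hd w).2 0

end Pool.Agent.W439.RF.Cfc
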